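import Pool.Agent.MP07f90a.Basic

/-!
# Chains of bits, slots, and the family for `m(n,k) >= C(n,k) / k^(1+o(1))`
-/

open Finset

namespace Pool.Agent.H82R2.ZT

open Pool.Agent.MP07f90a

/-- Product of the differences of the bits `b i`, `b (i+1)`, ... along a list. -/
def chain {V : Type*} (b : ℕ → V → ZMod 2) : ℕ → List V → ZMod 2
  | i, x :: y :: l => (b i x + b i y) * chain b (i + 1) (y :: l)
  | _, _ => 1

/-- The `i`-th slot of a list: `a x + a y` for the entries `x, y` at positions `i, i+1`,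
and `1` if the list is too short. -/
def slot {V K : Type*} [Add K] [One K] (a : V → K) (i : ℕ) (l : List V) : K :=
  match l.drop i with
  | x :: y :: _ => a x + a y
  | _ => 1

/-- The sorted list of the elements of `e` of colour `j`. -/
noncomputable def cont {n p : ℕ} (c : Fin n → ZMod p) (e : Finset (Fin n)) (j : ZMod p) :
    List (Fin n) :=
  (e.filter (fun v => c v = j)).sort (· ≤ ·)

/-- No colour class of `e` has more than `s + 1` elements. -/
def Good {n p : ℕ} (s : ℕ) (c : Fin n → ZMod p) (e : Finset (Fin n)) : Prop :=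
  ∀ j : ZMod p, (e.filter (fun v => c v = j)).card ≤ s + 1

/-- The product of the `s` forms: the `i`-th form is the bit `lam` of the product, over all colour
classes, of the `i`-th slots. -/
noncomputable def val {n p s : ℕ} [NeZero p] {K : Type*} [CommRing K] (lam : K →+ ZMod 2)
    (c : Fin n → ZMod p) (a : Fin s → Fin n → K) (e : Finset (Fin n)) : ZMod 2 :=
  ∏ i : Fin s, lam (∏ j : ZMod p, slot (a i) (i : ℕ) (cont c e j))

open Classical in
/-- The family. -/
noncomputable def fam {n p s : ℕ} [NeZero p] {K : Type*} [CommRing K] (k : ℕ) (lam : K →+ ZMod 2)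
    (c : Fin n → ZMod p) (a : Fin s → Fin n → K) (a0 b0 : ZMod p) : Finset (Finset (Fin n)) :=
  ((univ : Finset (Fin n)).powersetCard k).filter (fun e =>
    Good s c e ∧ val lam c a e = 1 ∧
    ∃ u ∈ e, (∀ w ∈ e, c w = c u → w = u) ∧
      ∑ z ∈ e.erase u, c z = a0 ∧ ∑ z ∈ e.erase u, (c z) ^ 2 = b0)

/-! ### Statements -/

/-- T1 -/
def ChainCount : Prop := ∀ (V : Type) (b : ℕ → V → ZMod 2) (l : List V) (i : ℕ), 2 ≤ l.length →
    ((range l.length).filter (fun t => chain b i (l.eraseIdx t) = 1)).card = 0 ∨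
    ((range l.length).filter (fun t => chain b i (l.eraseIdx t) = 1)).card = 2

/-- T2 -/
def ProdChain : Prop := ∀ (V K : Type) [CommRing K] (lam : K →+ ZMod 2) (s : ℕ)
    (a : Fin s → V → K) (q : Fin s → K) (l : List V), l.length ≤ s + 1 →
    ∏ i : Fin s, lam (q i * slot (a i) (i : ℕ) l) =
      chain (fun i v => if h : i < s then lam (q ⟨i, h⟩ * a ⟨i, h⟩ v) else 0) 0 l *
        ∏ i : Fin s, (if (i : ℕ) + 1 < l.length then 1 else lam (q i))

/-- T3: the class lemma. -/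
def ClassCount : Prop := ∀ (n p s : ℕ) [NeZero p] (K : Type) [CommRing K] (lam : K →+ ZMod 2)
    (c : Fin n → ZMod p) (a : Fin s → Fin n → K) (S : Finset (Fin n)) (α : ZMod p),
    2 ≤ (S.filter (fun v => c v = α)).card →
    ∀ D : Finset (Fin n), (∀ w, w ∈ D ↔ (w ∈ S ∧ c w = α ∧ Good s c (S.erase w) ∧
      val lam c a (S.erase w) = 1)) → D.card = 0 ∨ D.card = 2

/-- T4: removing a point that is alone in its class. -/
def Alone : Prop := ∀ (n p s : ℕ) [NeZero p] (K : Type) [CommRing K] (lam : K →+ ZMod 2)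
    (c : Fin n → ZMod p) (a : Fin s → Fin n → K) (S : Finset (Fin n)) (w : Fin n), w ∈ S →
    (∀ v ∈ S, c v = c w → v = w) →
    (Good s c (S.erase w) ↔ Good s c S) ∧ val lam c a (S.erase w) = val lam c a S

/-- T5: admissibility. -/
def FamAdmissible : Prop := ∀ (n p s k : ℕ) [Fact p.Prime] (K : Type) [CommRing K]
    (lam : K →+ ZMod 2) (c : Fin n → ZMod p) (a : Fin s → Fin n → K) (a0 b0 : ZMod p), p ≠ 2 →
    Admissible n k (fam k lam c a a0 b0)

/-- T6: counting the vector assignments for one level. -/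
def LevelCount : Prop := ∀ (n p k i : ℕ) [NeZero p] (K : Type) [Field K] [Fintype K]
    (lam : K →+ ZMod 2) (c : Fin n → ZMod p) (e : Finset (Fin n)), CharP K 2 →
    lam 1 = 1 → e.card ≤ k → 2 * k ≤ Fintype.card K →
    (Fintype.card K) ^ n ≤ 4 * Nat.card {a : Fin n → K //
      lam (∏ j : ZMod p, slot a i (cont c e j)) = 1}

/-- T7: counting colourings. -/
def ColourCount : Prop := ∀ (n p s k : ℕ) [NeZero p] (e : Finset (Fin n)), 1 ≤ s → e.card = k →
    2 * k ≤ p → k ^ (s + 2) ≤ p ^ (s + 1) →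
    k * p ^ n ≤ 3 * Nat.card {x : (Fin n → ZMod p) × Fin n //
      Good s x.1 e ∧ x.2 ∈ e ∧ ∀ w ∈ e, x.1 w = x.1 x.2 → w = x.2}

/-- T8: double counting. -/
def FamBound : Prop := ∀ (n p s k : ℕ) [Fact p.Prime] (K : Type) [Field K] [Fintype K]
    (lam : K →+ ZMod 2), CharP K 2 → lam 1 = 1 → 2 * k ≤ Fintype.card K → p ≠ 2 → 1 ≤ s →
    2 * k ≤ p → k ^ (s + 2) ≤ p ^ (s + 1) →
    k * n.choose k ≤ 3 * 4 ^ s * p ^ 2 * m n k

/-- T9: a field of characteristic two with at least `N` elements and a functional. -/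
def FieldExists : Prop := ∀ N : ℕ, ∃ (K : Type) (_ : Field K) (_ : Fintype K)
    (lam : K →+ ZMod 2), CharP K 2 ∧ lam 1 = 1 ∧ N ≤ Fintype.card K

/-- T10: the prime. -/
def PrimeExists : Prop := ∀ s k : ℕ, 1 ≤ s → 2 ≤ k → ∃ p : ℕ, p.Prime ∧ p ≠ 2 ∧ 2 * k ≤ p ∧
    k ^ (s + 2) ≤ p ^ (s + 1) ∧ (p : ℝ) ≤ 6 * (k : ℝ) ^ (1 + 1 / ((s : ℝ) + 1))

/-- T11: the bound with a parameter. -/
def ParamBound : Prop := ∀ n k s : ℕ, 2 ≤ k → 1 ≤ s →
    (n.choose k : ℝ) ≤ 108 * 4 ^ s * (k : ℝ) ^ (1 + 2 / ((s : ℝ) + 1)) * m n k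

/-- T12: the final bound. -/
def FinalBound : Prop := ∀ n k : ℕ, 2 ≤ k →
    (n.choose k : ℝ) ≤ 432 * k * Real.exp (4 * √(Real.log k)) * m n k

end Pool.Agent.H82R2.ZT
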