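import Pool.Agent.H82R2.ZT.Defs

open Finset

namespace Pool.Agent.H82R2.ZT

/-- indicator of a bit being one -/
private def ind (x : ZMod 2) : ℕ := if x = 1 then 1 else 0

private lemma ind_a : ∀ p0 p1 q C : ZMod 2, p0 + p1 = 0 →
    (0 + ind ((p0 + q) * C) + ind ((p1 + q) * C) = 0 ∨
      0 + ind ((p0 + q) * C) + ind ((p1 + q) * C) = 2) := by
  unfold ind; decide

private lemma ind_b : ∀ p0 p1 q C : ZMod 2, p0 + p1 = 1 →
    ind ((p0 + q) * C) + ind ((p1 + q) * C) = ind C := by
  unfold ind; decide

private lemma z01 : ∀ p : ZMod 2, p = 0 ∨ p = 1 := by decide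

private lemma sum_form {V : Type} (b : ℕ → V → ZMod 2) (l : List V) : ∀ i : ℕ, 2 ≤ l.length →
    (∑ t ∈ range l.length, ind (chain b i (l.eraseIdx t))) = 0 ∨
    (∑ t ∈ range l.length, ind (chain b i (l.eraseIdx t))) = 2 := by
  induction l with
  | nil => intro i h; simp at h
  | cons y0 l ih =>
    intro i h
    rcases l with _ | ⟨y1, rest⟩
    · simp at h
    · have e1 : (∑ t ∈ range (y0 :: y1 :: rest).length,
          ind (chain b i ((y0 :: y1 :: rest).eraseIdx t))) =
          (∑ t ∈ range rest.length,
            ind ((b i y0 + b i y1) * chain b (i + 1) (y1 :: rest.eraseIdx t))) +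
            ind (chain b i (y0 :: rest)) + ind (chain b i (y1 :: rest)) := by
        rw [show (y0 :: y1 :: rest).length = rest.length + 1 + 1 from rfl,
          Finset.sum_range_succ', Finset.sum_range_succ']
        rfl
      rcases rest with _ | ⟨z, r⟩
      · right
        rw [e1]
        simp [chain, ind]
      · have e2 : (∑ t ∈ range (y1 :: z :: r).length,
          ind (chain b (i + 1) ((y1 :: z :: r).eraseIdx t))) =
          (∑ t ∈ range (z :: r).length,
            ind (chain b (i + 1) (y1 :: (z :: r).eraseIdx t))) +
            ind (chain b (i + 1) (z :: r)) := by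
          rw [show (y1 :: z :: r).length = (z :: r).length + 1 from rfl, Finset.sum_range_succ']
          rfl
        have hih := ih (i + 1) (by simp)
        rw [e1]
        have c1 : chain b i (y0 :: z :: r) = (b i y0 + b i z) * chain b (i + 1) (z :: r) := rfl
        have c2 : chain b i (y1 :: z :: r) = (b i y1 + b i z) * chain b (i + 1) (z :: r) := rfl
        rw [c1, c2]
        rw [e2] at hih
        rcases z01 (b i y0 + b i y1) with hβ | hβ
        · rw [hβ]
          have h0 : (∑ t ∈ range (z :: r).length,
            ind ((0 : ZMod 2) * chain b (i + 1) (y1 :: (z :: r).eraseIdx t))) = 0 := by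
            apply Finset.sum_eq_zero
            intro t _
            simp [ind]
          rw [h0]
          exact ind_a _ _ _ _ hβ
        · rw [hβ]
          simp only [one_mul]
          rw [add_assoc, ind_b _ _ _ _ hβ]
          exact hih

theorem T01ChainCount_proof : ChainCount := by
  intro V b l i h
  rw [Finset.card_filter]
  exact sum_form b l i h

end Pool.Agent.H82R2.ZT
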