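import Pool.Agent.H82R2.ZT.Defs

/-!
# T02: the product of the levels is a chain (helper677)
-/

open Finset

namespace Pool.Agent.H82R2.ZT

open Pool.Agent.MP07f90a

/-- one factor of a chain -/
def t02f {V : Type*} (b : ℕ → V → ZMod 2) (i : ℕ) : List V → ZMod 2
  | x :: y :: _ => b i x + b i y
  | _ => 1

theorem t02_chain {V : Type*} (b : ℕ → V → ZMod 2) (l : List V) : ∀ (i0 s : ℕ),
    l.length ≤ s + 1 → chain b i0 l = ∏ i ∈ range s, t02f b (i0 + i) (l.drop i) := by
  induction l with
  | nil =>
    intro i0 s _
    rw [Finset.prod_eq_one]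
    · simp [chain]
    · intro i _
      simp [t02f]
  | cons x l ih =>
    intro i0 s hs
    cases l with
    | nil =>
      rw [Finset.prod_eq_one]
      · simp [chain]
      · intro i _
        cases i with
        | zero => simp [t02f]
        | succ i => simp [t02f]
    | cons y l =>
      obtain ⟨s', rfl⟩ : ∃ s', s = s' + 1 := ⟨s - 1, by simp at hs; omega⟩
      rw [Finset.prod_range_succ', chain, ih (i0 + 1) s' (by simp at hs ⊢; omega), mul_comm]
      congr 1
      refine Finset.prod_congr rfl fun i _ => ?_
      rw [List.drop_succ_cons, show i0 + 1 + i = i0 + (i + 1) by ring]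

theorem t02ProdChain_proof : ProdChain := by
  intro V K _ lam s a q l hl
  rw [t02_chain _ l 0 s hl, ← Fin.prod_univ_eq_prod_range
    (fun i => t02f (fun i v => if h : i < s then lam (q ⟨i, h⟩ * a ⟨i, h⟩ v) else 0) (0 + i)
      (l.drop i)) s, ← Finset.prod_mul_distrib]
  refine Finset.prod_congr rfl fun i _ => ?_
  have hlen : (l.drop (i : ℕ)).length = l.length - i := List.length_drop
  rw [zero_add]
  unfold slot
  rcases hd : l.drop (i : ℕ) with _ | ⟨x, _ | ⟨y, t⟩⟩
  · rw [hd] at hlen
    simp only [List.length_nil] at hlen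
    rw [if_neg (by omega)]
    simp [t02f]
  · rw [hd] at hlen
    simp only [List.length_cons, List.length_nil] at hlen
    rw [if_neg (by omega)]
    simp [t02f]
  · rw [hd] at hlen
    simp only [List.length_cons] at hlen
    rw [if_pos (by omega)]
    simp only [t02f, mul_one, dif_pos i.2, Fin.eta]
    rw [mul_add, map_add]

end Pool.Agent.H82R2.ZT
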