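import Pool.Agent.H82R2.ZT.Defs

open Finset

namespace Pool.Agent.H82R2.ZT

open Pool.Agent.MP07f90a

namespace T03

theorem mem_cont {n p : ℕ} (c : Fin n → ZMod p) (e : Finset (Fin n)) (j : ZMod p) (v : Fin n) :
    v ∈ cont c e j ↔ v ∈ e ∧ c v = j := by simp [cont]

theorem cont_nodup {n p : ℕ} (c : Fin n → ZMod p) (e : Finset (Fin n)) (j : ZMod p) :
    (cont c e j).Nodup := by unfold cont; exact Finset.sort_nodup _ _

theorem cont_length {n p : ℕ} (c : Fin n → ZMod p) (e : Finset (Fin n)) (j : ZMod p) :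
    (cont c e j).length = (e.filter (fun v => c v = j)).card := by unfold cont; simp

theorem cont_erase_same {n p : ℕ} (c : Fin n → ZMod p) (S : Finset (Fin n)) (w : Fin n)
    (α : ZMod p) (_hw : c w = α) : cont c (S.erase w) α = (cont c S α).erase w := by
  have h1 : ((cont c S α).erase w).Nodup := (cont_nodup c S α).erase w
  have h2 : ((cont c S α).erase w).Pairwise (· ≤ ·) := by
    have : (cont c S α).Pairwise (· ≤ ·) := by unfold cont; exact Finset.pairwise_sort _ _
    exact this.sublist List.erase_sublist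
  have h3 := (List.toFinset_sort (· ≤ ·) h1).2 h2
  have h4 : ((cont c S α).erase w).toFinset = (S.erase w).filter (fun v => c v = α) := by
    ext v
    rw [List.mem_toFinset, (cont_nodup c S α).mem_erase_iff, mem_cont]
    simp only [mem_filter, mem_erase]
    tauto
  rw [← h3, h4]
  rfl

theorem cont_erase_other {n p : ℕ} (c : Fin n → ZMod p) (S : Finset (Fin n)) (w : Fin n)
    (j : ZMod p) (hw : c w ≠ j) : cont c (S.erase w) j = cont c S j := by
  unfold cont
  congr 1
  ext v
  simp only [mem_filter, mem_erase]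
  constructor
  · rintro ⟨⟨_, h1⟩, h2⟩; exact ⟨h1, h2⟩
  · rintro ⟨h1, h2⟩
    refine ⟨⟨?_, h1⟩, h2⟩
    rintro rfl; exact hw h2

theorem filter_erase_other {n p : ℕ} (c : Fin n → ZMod p) (S : Finset (Fin n)) (w : Fin n)
    (j : ZMod p) (hw : c w ≠ j) :
    (S.erase w).filter (fun v => c v = j) = S.filter (fun v => c v = j) := by
  ext v
  simp only [mem_filter, mem_erase]
  constructor
  · rintro ⟨⟨_, h1⟩, h2⟩; exact ⟨h1, h2⟩
  · rintro ⟨h1, h2⟩
    refine ⟨⟨?_, h1⟩, h2⟩
    rintro rfl; exact hw h2

theorem good_iff {n p s : ℕ} (c : Fin n → ZMod p) (S : Finset (Fin n)) (w : Fin n) (α : ZMod p)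
    (hwS : w ∈ S) (hw : c w = α) :
    Good s c (S.erase w) ↔ ((S.filter (fun v => c v = α)).card - 1 ≤ s + 1 ∧
      ∀ j, j ≠ α → (S.filter (fun v => c v = j)).card ≤ s + 1) := by
  have h1 : ((S.erase w).filter (fun v => c v = α)).card = (S.filter (fun v => c v = α)).card - 1 := by
    have : (S.erase w).filter (fun v => c v = α) = (S.filter (fun v => c v = α)).erase w := by
      ext v; simp only [mem_filter, mem_erase]; tauto
    rw [this, Finset.card_erase_of_mem (by simp [hwS, hw])]
  constructor
  · intro h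
    refine ⟨?_, ?_⟩
    · rw [← h1]; exact h α
    · intro j hj
      have := h j
      rwa [filter_erase_other c S w j (by rw [hw]; exact Ne.symm hj)] at this
  · rintro ⟨h2, h3⟩ j
    by_cases hj : j = α
    · subst hj; rw [h1]; exact h2
    · rw [filter_erase_other c S w j (by rw [hw]; exact Ne.symm hj)]; exact h3 j hj

end T03

open T03 in
theorem classCount_proof (h1 : ChainCount) (h2 : ProdChain) : ClassCount := by
  intro n p s _ K _ lam c a S α hN D hD
  classical
  set N := (S.filter (fun v => c v = α)).card with hNdef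
  by_cases hG : (N - 1 ≤ s + 1 ∧ ∀ j, j ≠ α → (S.filter (fun v => c v = j)).card ≤ s + 1)
  swap
  · left
    rw [Finset.card_eq_zero]
    apply Finset.eq_empty_of_forall_notMem
    intro w hw
    rw [hD] at hw
    exact hG ((good_iff c S w α hw.1 hw.2.1).1 hw.2.2.1)
  set L := cont c S α with hL
  have hLlen : L.length = N := cont_length c S α
  have hLnd : L.Nodup := cont_nodup c S α
  set q : Fin s → K := fun i => ∏ j ∈ (univ : Finset (ZMod p)).erase α, slot (a i) (i : ℕ) (cont c S j) with hq
  set b : ℕ → Fin n → ZMod 2 := fun i v => if h : i < s then lam (q ⟨i, h⟩ * a ⟨i, h⟩ v) else 0 with hb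
  set κ : ZMod 2 := ∏ i : Fin s, (if (i : ℕ) + 1 < N - 1 then 1 else lam (q i)) with hκ
  have hval : ∀ w, w ∈ S → c w = α → val lam c a (S.erase w) = chain b 0 (L.erase w) * κ := by
    intro w hwS hw
    have hwL : w ∈ L := by rw [hL, mem_cont]; exact ⟨hwS, hw⟩
    have hlen : (L.erase w).length = N - 1 := by
      rw [List.length_erase_of_mem hwL, hLlen]
    have e1 : val lam c a (S.erase w) = ∏ i : Fin s, lam (q i * slot (a i) (i : ℕ) (L.erase w)) := by
      unfold val
      apply Finset.prod_congr rfl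
      intro i _
      congr 1
      rw [← Finset.prod_erase_mul (univ : Finset (ZMod p)) _ (Finset.mem_univ α)]
      rw [cont_erase_same c S w α hw]
      congr 1
      apply Finset.prod_congr rfl
      intro j hj
      rw [cont_erase_other c S w j (by rw [hw]; exact Ne.symm (Finset.ne_of_mem_erase hj))]
    rw [e1, h2 (Fin n) K lam s a q (L.erase w) (by rw [hlen]; exact hG.1)]
    rw [hlen]
  have hmem : ∀ w, w ∈ D ↔ (w ∈ L ∧ chain b 0 (L.erase w) * κ = 1) := by
    intro w
    rw [hD, hL, mem_cont]
    constructor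
    · rintro ⟨h3, h4, h5, h6⟩
      refine ⟨⟨h3, h4⟩, ?_⟩
      rw [← hval w h3 h4]; exact h6
    · rintro ⟨⟨h3, h4⟩, h5⟩
      refine ⟨h3, h4, (good_iff c S w α h3 h4).2 hG, ?_⟩
      rw [hval w h3 h4]; exact h5
  have hκ2 : κ = 0 ∨ κ = 1 := by
    generalize κ = x; revert x; decide
  rcases hκ2 with hk | hk
  · left
    rw [Finset.card_eq_zero]
    apply Finset.eq_empty_of_forall_notMem
    intro w hw
    rw [hmem, hk, mul_zero] at hw
    exact absurd hw.2 (by decide)
  · have hmem' : ∀ w, w ∈ D ↔ (w ∈ L ∧ chain b 0 (L.erase w) = 1) := by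
      intro w; rw [hmem, hk, mul_one]
    have hcard : D.card = ((range L.length).filter (fun t => chain b 0 (L.eraseIdx t) = 1)).card := by
      symm
      refine Finset.card_bij (fun t ht => L[t]'(by
        have := (Finset.mem_filter.1 ht).1; exact Finset.mem_range.1 this)) ?_ ?_ ?_
      · intro t ht
        obtain ⟨ht1, ht2⟩ := Finset.mem_filter.1 ht
        have ht1' := Finset.mem_range.1 ht1
        rw [hmem']
        refine ⟨List.getElem_mem _, ?_⟩
        rw [hLnd.erase_getElem]
        exact ht2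
      · intro t ht t' ht' htt
        exact (List.Nodup.getElem_inj_iff hLnd).1 htt
      · intro w hw
        rw [hmem'] at hw
        obtain ⟨t, ht, htw⟩ := List.getElem_of_mem hw.1
        refine ⟨t, ?_, htw⟩
        rw [Finset.mem_filter, Finset.mem_range]
        refine ⟨ht, ?_⟩
        rw [← hw.2, ← htw, hLnd.erase_getElem]
    rw [hcard]
    exact h1 (Fin n) b L 0 (by rw [hLlen]; exact hN)

end Pool.Agent.H82R2.ZT
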