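import Pool.Agent.H82R2.ZT.Defs

/-! T04: removing a point that is alone in its class. -/

open Finset

namespace Pool.Agent.H82R2.ZT

open Pool.Agent.MP07f90a

lemma t04_filter_ne {n p : ℕ} (c : Fin n → ZMod p) (S : Finset (Fin n)) (w : Fin n) (j : ZMod p)
    (hj : j ≠ c w) : (S.erase w).filter (fun v => c v = j) = S.filter (fun v => c v = j) := by
  ext v
  simp only [mem_filter, mem_erase]
  constructor
  · rintro ⟨⟨-, h⟩, h'⟩
    exact ⟨h, h'⟩
  · rintro ⟨h, h'⟩
    refine ⟨⟨?_, h⟩, h'⟩
    rintro rfl
    exact hj h'.symm

lemma t04_filter_eq {n p : ℕ} (c : Fin n → ZMod p) (S : Finset (Fin n)) (w : Fin n) (hw : w ∈ S)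
    (h : ∀ v ∈ S, c v = c w → v = w) : S.filter (fun v => c v = c w) = {w} := by
  ext v
  simp only [mem_filter, mem_singleton]
  constructor
  · rintro ⟨h1, h2⟩
    exact h v h1 h2
  · rintro rfl
    exact ⟨hw, rfl⟩

lemma t04_filter_eq' {n p : ℕ} (c : Fin n → ZMod p) (S : Finset (Fin n)) (w : Fin n)
    (h : ∀ v ∈ S, c v = c w → v = w) : (S.erase w).filter (fun v => c v = c w) = ∅ := by
  ext v
  simp only [mem_filter, mem_erase, Finset.notMem_empty, iff_false]
  rintro ⟨⟨h1, h2⟩, h3⟩
  exact h1 (h v h2 h3)

theorem T04Alone_proof : Alone := by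
  intro n p s _ K _ lam c a S w hw h
  constructor
  · unfold Good
    constructor
    · intro hg j
      by_cases hj : j = c w
      · subst hj
        rw [t04_filter_eq c S w hw h]
        simp
      · rw [← t04_filter_ne c S w j hj]
        exact hg j
    · intro hg j
      by_cases hj : j = c w
      · subst hj
        rw [t04_filter_eq' c S w h]
        simp
      · rw [t04_filter_ne c S w j hj]
        exact hg j
  · unfold val
    refine Finset.prod_congr rfl fun i _ => ?_
    congr 1
    refine Finset.prod_congr rfl fun j _ => ?_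
    by_cases hj : j = c w
    · subst hj
      have h1 : cont c S (c w) = [w] := by
        unfold cont
        rw [t04_filter_eq c S w hw h]
        simp
      have h2 : cont c (S.erase w) (c w) = [] := by
        unfold cont
        rw [t04_filter_eq' c S w h]
        simp
      rw [h1, h2]
      unfold slot
      rcases i with ⟨i, hi⟩
      cases i with
      | zero => simp
      | succ i => simp
    · unfold cont
      rw [t04_filter_ne c S w j hj]

end Pool.Agent.H82R2.ZT
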