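import Pool.Agent.H82R2.ZT.Defs

/-!
# T05: the family is admissible
-/

open Finset

namespace Pool.Agent.H82R2.ZT

open Pool.Agent.MP07f90a

namespace T05

theorem mem_fam {n p s : ℕ} [NeZero p] {K : Type*} [CommRing K] {k : ℕ} {lam : K →+ ZMod 2}
    {c : Fin n → ZMod p} {a : Fin s → Fin n → K} {a0 b0 : ZMod p} {e : Finset (Fin n)} :
    e ∈ fam k lam c a a0 b0 ↔ e.card = k ∧ Good s c e ∧ val lam c a e = 1 ∧
      ∃ u ∈ e, (∀ w ∈ e, c w = c u → w = u) ∧
        ∑ z ∈ e.erase u, c z = a0 ∧ ∑ z ∈ e.erase u, (c z) ^ 2 = b0 := by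
  classical
  unfold fam
  rw [mem_filter, mem_powersetCard]
  simp only [subset_univ, true_and]

theorem sum2 {n p : ℕ} (S : Finset (Fin n)) (f : Fin n → ZMod p) (u v : Fin n) (hu : u ∈ S)
    (hv : v ∈ S.erase u) :
    ∑ z ∈ (S.erase u).erase v, f z = ∑ z ∈ S, f z - f u - f v := by
  have h1 := Finset.add_sum_erase S f hu
  have h2 := Finset.add_sum_erase (S.erase u) f hv
  rw [← h1, ← h2]; ring

end T05

open T05 in
theorem famAdmissible_proof (h3 : ClassCount) (h4 : Alone) : FamAdmissible := by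
  intro n p s k _ K _ lam c a a0 b0 hp
  classical
  have two : (2 : ZMod p) ≠ 0 := by
    intro h
    have h2 : ((2 : ℕ) : ZMod p) = 0 := by exact_mod_cast h
    rw [ZMod.natCast_eq_zero_iff] at h2
    have := (Nat.prime_dvd_prime_iff_eq (Fact.out : p.Prime) Nat.prime_two).1 h2
    exact hp this
  have hcardk : ∀ E ∈ fam k lam c a a0 b0, E.card = k := fun E hE => (mem_fam.1 hE).1
  refine ⟨hcardk, ?_⟩
  intro S hS
  rw [filter_card hcardk hS]
  set D : Finset (Fin n) := S.filter (fun x => S.erase x ∈ fam k lam c a a0 b0) with hD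
  have card_er : ∀ z ∈ S, (S.erase z).card = k := by
    intro z hz; rw [Finset.card_erase_of_mem hz, hS]; omega
  by_cases hne : D.Nonempty
  swap
  · left
    rw [not_nonempty_iff_eq_empty] at hne
    rw [hne, card_empty]
  obtain ⟨w0, hw0D⟩ := hne
  have hw0D' := hw0D
  rw [hD, mem_filter] at hw0D'
  obtain ⟨hw0S, hw0f⟩ := hw0D'
  obtain ⟨-, hG0, hV0, u0, hu0, hal0, hs0, hq0⟩ := mem_fam.1 hw0f
  rw [sum2 S (fun z => c z) w0 u0 hw0S hu0] at hs0
  rw [sum2 S (fun z => (c z) ^ 2) w0 u0 hw0S hu0] at hq0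
  have hu0S : u0 ∈ S := mem_of_mem_erase hu0
  have hu0w0 : u0 ≠ w0 := ne_of_mem_erase hu0
  -- the colours of a pair
  have factP : ∀ w ∈ S, ∀ u ∈ S.erase w, ∑ z ∈ (S.erase w).erase u, c z = a0 →
      ∑ z ∈ (S.erase w).erase u, (c z) ^ 2 = b0 →
      (c w = c w0 ∧ c u = c u0) ∨ (c w = c u0 ∧ c u = c w0) := by
    intro w hw u hu h1 h2
    rw [sum2 S (fun z => c z) w u hw hu] at h1
    rw [sum2 S (fun z => (c z) ^ 2) w u hw hu] at h2
    have s1 : c w0 + c u0 = c w + c u := by linear_combination h1 - hs0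
    have s2 : (c w0) ^ 2 + (c u0) ^ 2 = (c w) ^ 2 + (c u) ^ 2 := by linear_combination h2 - hq0
    have s3 : 2 * ((c w - c w0) * (c w - c u0)) = 0 := by
      have : c u = c w0 + c u0 - c w := by linear_combination -s1
      rw [this] at s2
      linear_combination -s2
    have s4 : (c w - c w0) * (c w - c u0) = 0 := by
      rcases mul_eq_zero.1 s3 with h | h
      · exact absurd h two
      · exact h
    rcases mul_eq_zero.1 s4 with h | h
    · left
      have h' := sub_eq_zero.1 h
      refine ⟨h', ?_⟩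
      rw [h'] at s1
      exact (add_left_cancel s1).symm
    · right
      have h' := sub_eq_zero.1 h
      refine ⟨h', ?_⟩
      rw [h', add_comm (c u0)] at s1
      exact (add_right_cancel s1).symm
  -- converse
  have conv : ∀ w ∈ S, ∀ u ∈ S.erase w,
      (c w = c w0 ∧ c u = c u0) ∨ (c w = c u0 ∧ c u = c w0) →
      ∑ z ∈ (S.erase w).erase u, c z = a0 ∧ ∑ z ∈ (S.erase w).erase u, (c z) ^ 2 = b0 := by
    intro w hw u hu h
    rw [sum2 S (fun z => c z) w u hw hu, sum2 S (fun z => (c z) ^ 2) w u hw hu, ← hs0, ← hq0]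
    rcases h with ⟨h1, h2⟩ | ⟨h1, h2⟩
    · simp only [h1, h2, and_self]
    · simp only [h1, h2]
      constructor <;> ring
  have memD : ∀ w, w ∈ D ↔ w ∈ S ∧ Good s c (S.erase w) ∧ val lam c a (S.erase w) = 1 ∧
      ∃ u ∈ S.erase w, (∀ v ∈ S.erase w, c v = c u → v = u) ∧
        ((c w = c w0 ∧ c u = c u0) ∨ (c w = c u0 ∧ c u = c w0)) := by
    intro w
    rw [hD, mem_filter]
    constructor
    · rintro ⟨h1, h2⟩
      obtain ⟨-, hG, hV, u, hu, hal, hs', hq'⟩ := mem_fam.1 h2
      exact ⟨h1, hG, hV, u, hu, hal, factP w h1 u hu hs' hq'⟩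
    · rintro ⟨h1, hG, hV, u, hu, hal, hc⟩
      obtain ⟨hs', hq'⟩ := conv w h1 u hu hc
      exact ⟨h1, mem_fam.2 ⟨card_er w h1, hG, hV, u, hu, hal, hs', hq'⟩⟩
  by_cases hαβ : c w0 = c u0
  · -- A
    have hcl : ∀ v ∈ S, c v = c w0 → v = w0 ∨ v = u0 := by
      intro v hv hcv
      by_cases h : v = w0
      · exact Or.inl h
      · exact Or.inr (hal0 v (mem_erase.2 ⟨h, hv⟩) (hcv.trans hαβ))
    refine h3 n p s K lam c a S (c w0) ?_ D ?_
    · have hsub : ({w0, u0} : Finset (Fin n)) ⊆ S.filter (fun v => c v = c w0) := by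
        intro v hv
        rw [mem_insert, mem_singleton] at hv
        rw [mem_filter]
        rcases hv with rfl | rfl
        · exact ⟨hw0S, rfl⟩
        · exact ⟨hu0S, hαβ.symm⟩
      calc 2 = ({w0, u0} : Finset (Fin n)).card := (card_pair hu0w0.symm).symm
        _ ≤ _ := card_le_card hsub
    · intro w
      rw [memD]
      constructor
      · rintro ⟨h1, hG, hV, u, hu, hal, hc⟩
        refine ⟨h1, ?_, hG, hV⟩
        rcases hc with hc | hc
        · exact hc.1
        · exact hc.1.trans hαβ.symm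
      · rintro ⟨h1, hcw, hG, hV⟩
        rcases hcl w h1 hcw with rfl | rfl
        · exact ⟨h1, hG, hV, u0, hu0, hal0, Or.inl ⟨rfl, rfl⟩⟩
        · refine ⟨h1, hG, hV, w0, mem_erase.2 ⟨hu0w0.symm, hw0S⟩, ?_, Or.inr ⟨rfl, rfl⟩⟩
          intro v hv hcv
          rcases hcl v (mem_of_mem_erase hv) hcv with h | h
          · exact h
          · exact absurd h (ne_of_mem_erase hv)
  · -- B
    have hu0al : ∀ v ∈ S, c v = c u0 → v = u0 := by
      intro v hv hcv
      apply hal0 v (mem_erase.2 ⟨?_, hv⟩) hcv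
      rintro rfl
      exact hαβ hcv
    by_cases hB : 2 ≤ (S.filter (fun v => c v = c w0)).card
    · -- B1
      refine h3 n p s K lam c a S (c w0) hB D ?_
      intro w
      rw [memD]
      constructor
      · rintro ⟨h1, hG, hV, u, hu, hal, hc⟩
        refine ⟨h1, ?_, hG, hV⟩
        rcases hc with hc | hc
        · exact hc.1
        · exfalso
          have hwu : w = u0 := hu0al w h1 hc.1
          have hsub : S.filter (fun v => c v = c w0) ⊆ {u} := by
            intro v hv
            rw [mem_filter] at hv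
            rw [mem_singleton]
            refine hal v (mem_erase.2 ⟨?_, hv.1⟩) (hv.2.trans hc.2.symm)
            rintro rfl
            rw [hwu] at hv
            exact hαβ hv.2.symm
          have := card_le_card hsub
          rw [card_singleton] at this
          omega
      · rintro ⟨h1, hcw, hG, hV⟩
        have hne : u0 ≠ w := by
          rintro rfl
          exact hαβ hcw.symm
        exact ⟨h1, hG, hV, u0, mem_erase.2 ⟨hne, hu0S⟩,
          fun v hv hcv => hu0al v (mem_of_mem_erase hv) hcv, Or.inl ⟨hcw, rfl⟩⟩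
    · -- B2
      right
      have hw0al : ∀ v ∈ S, c v = c w0 → v = w0 := by
        intro v hv hcv
        by_contra hcon
        apply hB
        have hsub : ({v, w0} : Finset (Fin n)) ⊆ S.filter (fun v => c v = c w0) := by
          intro x hx
          rw [mem_insert, mem_singleton] at hx
          rw [mem_filter]
          rcases hx with rfl | rfl
          · exact ⟨hv, hcv⟩
          · exact ⟨hw0S, rfl⟩
        calc 2 = ({v, w0} : Finset (Fin n)).card := (card_pair hcon).symm
          _ ≤ _ := card_le_card hsub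
      obtain ⟨g1, v1⟩ := h4 n p s K lam c a S w0 hw0S hw0al
      obtain ⟨g2, v2⟩ := h4 n p s K lam c a S u0 hu0S hu0al
      have hDeq : D = {w0, u0} := by
        ext w
        rw [memD, mem_insert, mem_singleton]
        constructor
        · rintro ⟨h1, hG, hV, u, hu, hal, hc⟩
          rcases hc with hc | hc
          · exact Or.inl (hw0al w h1 hc.1)
          · exact Or.inr (hu0al w h1 hc.1)
        · rintro (rfl | rfl)
          · exact ⟨hw0S, hG0, hV0, u0, hu0, hal0, Or.inl ⟨rfl, rfl⟩⟩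
          · exact ⟨hu0S, g2.2 (g1.1 hG0), by rw [v2, ← v1]; exact hV0, w0,
              mem_erase.2 ⟨hu0w0.symm, hw0S⟩,
              fun v hv hcv => hw0al v (mem_of_mem_erase hv) hcv, Or.inr ⟨rfl, rfl⟩⟩
      rw [hDeq, card_pair hu0w0.symm]

end Pool.Agent.H82R2.ZT
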