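import Pool.Agent.H82R2.ZT.Defs

/-! T6: counting the vector assignments for one level. -/

open Finset

namespace Pool.Agent.H82R2.ZT

namespace T06

open Classical in
lemma card_eq_le {n : ℕ} {K : Type} [Field K] [Fintype K] {x y : Fin n} (hxy : x ≠ y) :
    ((univ : Finset (Fin n → K)).filter (fun a => a x = a y)).card * Fintype.card K ≤
      (Fintype.card K) ^ n := by
  have h : (((univ : Finset (Fin n → K)).filter (fun a => a x = a y)) ×ˢ (univ : Finset K)).card ≤
      (univ : Finset (Fin n → K)).card := by
    apply Finset.card_le_card_of_injOn (fun q => Function.update q.1 y q.2)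
    · intro q _; exact mem_coe.2 (mem_univ _)
    · rintro ⟨a, t⟩ ha ⟨b, t'⟩ hb hab
      simp only [coe_product, coe_filter, mem_univ, true_and, coe_univ, Set.mem_prod,
        Set.mem_univ, and_true] at ha hb
      simp only at hab
      have ha' : a x = a y := ha
      have hb' : b x = b y := hb
      have h1 : ∀ z, z ≠ y → a z = b z := by
        intro z hz
        have := congrFun hab z
        rwa [Function.update_of_ne hz, Function.update_of_ne hz] at this
      have h2 : t = t' := by
        have := congrFun hab y
        rwa [Function.update_self, Function.update_self] at this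
      have h3 : a = b := by
        funext z
        by_cases hz : z = y
        · rw [hz, ← ha', ← hb']; exact h1 x hxy
        · exact h1 z hz
      rw [h2, h3]
  rwa [card_product, card_univ, card_univ, Fintype.card_fun, Fintype.card_fin] at h

open Classical in
lemma core {n : ℕ} {K : Type} [Field K] [Fintype K] [CharP K 2] (lam : K →+ ZMod 2)
    (h1 : lam 1 = 1) {ι : Type} [Fintype ι] (X Y : ι → Fin n) (hXY : ∀ j j', X j ≠ Y j')
    (hY : Function.Injective Y) (hc : 2 * Fintype.card ι ≤ Fintype.card K) :
    (Fintype.card K) ^ n ≤ 4 * Nat.card {a : Fin n → K // lam (∏ j, (a (X j) + a (Y j))) = 1} := by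
  have hcard : (univ : Finset (Fin n → K)).card = (Fintype.card K) ^ n := by
    rw [card_univ, Fintype.card_fun, Fintype.card_fin]
  have hq : 0 < Fintype.card K := Fintype.card_pos
  rw [Nat.card_eq_fintype_card, Fintype.card_subtype]
  rcases isEmpty_or_nonempty ι with hι | ⟨⟨j0⟩⟩
  · have : (univ : Finset (Fin n → K)).filter (fun a => lam (∏ j, (a (X j) + a (Y j))) = 1) = univ := by
      ext a
      simp [h1]
    rw [this, hcard]; omega
  · set π : (Fin n → K) → K := fun a => ∏ j ∈ univ.erase j0, (a (X j) + a (Y j)) with hπ
    have hprod : ∀ a : Fin n → K, ∏ j, (a (X j) + a (Y j)) = π a * (a (X j0) + a (Y j0)) := by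
      intro a
      rw [hπ, mul_comm]
      exact (mul_prod_erase univ (fun j => a (X j) + a (Y j)) (mem_univ j0)).symm
    have hπu : ∀ (a : Fin n → K) (t : K), π (Function.update a (Y j0) t) = π a := by
      intro a t
      simp only [hπ]
      refine prod_congr rfl fun j hj => ?_
      rw [Function.update_of_ne (hXY j j0), Function.update_of_ne]
      intro h
      exact (ne_of_mem_erase hj) (hY h)
    -- the bad set
    set Z := (univ : Finset (Fin n → K)).filter (fun a => π a = 0) with hZ
    set G1 := (univ : Finset (Fin n → K)).filter
      (fun a => π a ≠ 0 ∧ lam (π a * (a (X j0) + a (Y j0))) = 1) with hG1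
    set G0 := (univ : Finset (Fin n → K)).filter
      (fun a => π a ≠ 0 ∧ lam (π a * (a (X j0) + a (Y j0))) = 0) with hG0
    have hZc : 2 * Z.card ≤ (Fintype.card K) ^ n := by
      have hsub : Z ⊆ (univ : Finset ι).biUnion
          (fun j => (univ : Finset (Fin n → K)).filter (fun a => a (X j) = a (Y j))) := by
        intro a ha
        rw [hZ, mem_filter] at ha
        obtain ⟨j, -, hj⟩ := prod_eq_zero_iff.1 ha.2
        rw [mem_biUnion]
        refine ⟨j, mem_univ _, ?_⟩
        rw [mem_filter]
        exact ⟨mem_univ _, CharTwo.add_eq_zero.1 hj⟩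
      have h2 : Z.card * Fintype.card K ≤ Fintype.card ι * (Fintype.card K) ^ n := by
        calc Z.card * Fintype.card K ≤ (∑ j : ι, ((univ : Finset (Fin n → K)).filter
              (fun a => a (X j) = a (Y j))).card) * Fintype.card K :=
              Nat.mul_le_mul_right _ ((card_le_card hsub).trans card_biUnion_le)
          _ = ∑ j : ι, ((univ : Finset (Fin n → K)).filter
              (fun a => a (X j) = a (Y j))).card * Fintype.card K := by rw [sum_mul]
          _ ≤ ∑ _j : ι, (Fintype.card K) ^ n := sum_le_sum fun j _ => card_eq_le (hXY j j)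
          _ = _ := by rw [sum_const, card_univ, smul_eq_mul]
      have h3 : (2 * Z.card) * Fintype.card K ≤ (Fintype.card K) ^ n * Fintype.card K := by
        calc (2 * Z.card) * Fintype.card K = 2 * (Z.card * Fintype.card K) := by ring
          _ ≤ 2 * (Fintype.card ι * (Fintype.card K) ^ n) := by omega
          _ = (2 * Fintype.card ι) * (Fintype.card K) ^ n := by ring
          _ ≤ Fintype.card K * (Fintype.card K) ^ n := Nat.mul_le_mul_right _ hc
          _ = _ := by ring
      exact Nat.le_of_mul_le_mul_right h3 hq
    -- the involution
    have hinv : ∀ a : Fin n → K, π a ≠ 0 → 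
        lam (π (Function.update a (Y j0) (a (Y j0) + (π a)⁻¹)) *
          (Function.update a (Y j0) (a (Y j0) + (π a)⁻¹) (X j0) +
            Function.update a (Y j0) (a (Y j0) + (π a)⁻¹) (Y j0))) =
          lam (π a * (a (X j0) + a (Y j0))) + 1 := by
      intro a ha
      rw [hπu, Function.update_of_ne (hXY j0 j0), Function.update_self, ← add_assoc, mul_add,
        mul_inv_cancel₀ ha, map_add, h1]
    have hG01 : G0.card ≤ G1.card := by
      apply Finset.card_le_card_of_injOn (fun a => Function.update a (Y j0) (a (Y j0) + (π a)⁻¹))
      · intro a ha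
        rw [hG0, coe_filter] at ha
        obtain ⟨-, ha1, ha2⟩ := ha
        rw [hG1, coe_filter]
        refine ⟨mem_univ _, ?_, ?_⟩
        · rw [hπu]; exact ha1
        · rw [hinv a ha1, ha2, zero_add]
      · intro a _ b _ hab
        simp only at hab
        have hπab : π a = π b := by
          rw [← hπu a (a (Y j0) + (π a)⁻¹), hab, hπu]
        funext z
        by_cases hz : z = Y j0
        · have := congrFun hab (Y j0)
          rw [Function.update_self, Function.update_self, hπab] at this
          rw [hz]
          exact add_right_cancel this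
        · have := congrFun hab z
          rwa [Function.update_of_ne hz, Function.update_of_ne hz] at this
    have hunion : (univ : Finset (Fin n → K)) ⊆ (Z ∪ G1) ∪ G0 := by
      intro a _
      by_cases h : π a = 0
      · exact mem_union_left _ (mem_union_left _ (by rw [hZ, mem_filter]; exact ⟨mem_univ _, h⟩))
      · have h2 : ∀ x : ZMod 2, x = 1 ∨ x = 0 := by decide
        rcases h2 (lam (π a * (a (X j0) + a (Y j0)))) with h3 | h3
        · exact mem_union_left _ (mem_union_right _
            (by rw [hG1, mem_filter]; exact ⟨mem_univ _, h, h3⟩))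
        · exact mem_union_right _ (by rw [hG0, mem_filter]; exact ⟨mem_univ _, h, h3⟩)
    have hle := (card_le_card hunion).trans ((card_union_le _ _).trans
      (Nat.add_le_add_right (card_union_le _ _) _))
    rw [hcard] at hle
    have hfin : G1.card ≤ ((univ : Finset (Fin n → K)).filter
        (fun a => lam (∏ j, (a (X j) + a (Y j))) = 1)).card := by
      apply card_le_card
      intro a ha
      rw [hG1, mem_filter] at ha
      rw [mem_filter, hprod]
      exact ⟨mem_univ _, ha.2.2⟩
    omega

lemma slot_long {V K : Type*} [Add K] [One K] (i : ℕ) (l : List V) (h : i + 2 ≤ l.length)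
    (a : V → K) : slot a i l = a (l[i]'(by omega)) + a (l[i + 1]'(by omega)) := by
  unfold slot
  rw [List.drop_eq_getElem_cons (show i < l.length by omega),
    List.drop_eq_getElem_cons (show i + 1 < l.length by omega)]

lemma slot_short {V K : Type*} [Add K] [One K] (i : ℕ) (l : List V) (h : l.length < i + 2)
    (a : V → K) : slot a i l = 1 := by
  unfold slot
  rcases Nat.lt_or_ge i l.length with h1 | h1
  · rw [List.drop_eq_getElem_cons h1, List.drop_eq_nil_of_le (by omega : l.length ≤ i + 1)]
  · rw [List.drop_eq_nil_of_le h1]

end T06

open T06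

open Classical in
theorem T06LevelCount_proof : LevelCount := by
  intro n p k i _ K _ _ lam c e hchar h1 hek hk
  set P : ZMod p → Prop := fun j => i + 2 ≤ (cont c e j).length with hP
  let X : {j // P j} → Fin n := fun j => (cont c e j.1)[i]'(by have := j.2; simp only [hP] at this; omega)
  let Y : {j // P j} → Fin n := fun j => (cont c e j.1)[i + 1]'(by have := j.2; simp only [hP] at this; omega)
  have hmem : ∀ j v, v ∈ cont c e j → v ∈ e ∧ c v = j := by
    intro j v hv
    unfold cont at hv
    rw [mem_sort, mem_filter] at hv
    exact hv
  have hX : ∀ j, X j ∈ e ∧ c (X j) = j.1 := fun j => hmem _ _ (List.getElem_mem _)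
  have hY : ∀ j, Y j ∈ e ∧ c (Y j) = j.1 := fun j => hmem _ _ (List.getElem_mem _)
  have hXinj : Function.Injective X := by
    intro j j' h
    apply Subtype.ext
    rw [← (hX j).2, ← (hX j').2, h]
  have hYinj : Function.Injective Y := by
    intro j j' h
    apply Subtype.ext
    rw [← (hY j).2, ← (hY j').2, h]
  have hXY : ∀ j j', X j ≠ Y j' := by
    intro j j' h
    have hj : j = j' := by
      apply Subtype.ext
      rw [← (hX j).2, ← (hY j').2, h]
    subst hj
    have hnd : (cont c e j.1).Nodup := sort_nodup _ _
    have := (hnd.getElem_inj_iff).1 h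
    omega
  have hcard : Fintype.card {j // P j} ≤ k := by
    refine le_trans ?_ hek
    have : (univ.image X).card ≤ e.card := by
      apply card_le_card
      intro v hv
      obtain ⟨j, -, rfl⟩ := mem_image.1 hv
      exact (hX j).1
    rwa [card_image_of_injective _ hXinj, card_univ] at this
  have hprod : ∀ a : Fin n → K, ∏ j : ZMod p, slot a i (cont c e j) = ∏ j, (a (X j) + a (Y j)) := by
    intro a
    have e1 : ∏ j : ZMod p, slot a i (cont c e j) =
        ∏ j ∈ univ.filter P, slot a i (cont c e j) := by
      symm
      apply prod_subset (filter_subset _ _)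
      intro j _ hj
      rw [mem_filter, not_and] at hj
      have := hj (mem_univ _)
      simp only [hP, not_le] at this
      exact slot_short i _ this a
    rw [e1, ← prod_subtype_eq_prod_filter, ]
    simp only [subtype_univ]
    refine prod_congr rfl fun j _ => ?_
    exact slot_long i _ j.2 a
  simp only [hprod]
  exact core lam h1 X Y hXY hYinj (by omega)

end Pool.Agent.H82R2.ZT
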