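import Mathlib
import Pool.Agent.H82R2.ZT.Defs

/-!
# T07: counting colourings (helper804, for the project of helper82)
-/

open Finset

namespace Pool.Agent.H82R2.ZT

open Pool.Agent.MP07f90a

open Classical in
theorem T07_const (n p : ℕ) [NeZero p] (A : Finset (Fin n)) (u : Fin n) (hu : u ∈ A) (m : ℕ)
    (hA : A.card = m + 1) :
    (univ.filter (fun c : Fin n → ZMod p => ∀ w ∈ A, c w = c u)).card * p ^ m ≤ p ^ n := by
  have hp : 0 < p := Nat.pos_of_ne_zero (NeZero.ne p)
  have h := restrict_count (Subtype.val : A → Fin n) Subtype.val_injective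
    (fun f : A → ZMod p => ∀ w, f w = f ⟨u, hu⟩)
  rw [ZMod.card, Fintype.card_coe, hA, Fintype.card_fin] at h
  have h1 : (univ.filter (fun f : A → ZMod p => ∀ w, f w = f ⟨u, hu⟩)).card ≤ p := by
    have h2 : (univ.filter (fun f : A → ZMod p => ∀ w, f w = f ⟨u, hu⟩)).card
        ≤ (univ : Finset (ZMod p)).card := by
      refine Finset.card_le_card_of_injOn (fun f => f ⟨u, hu⟩) (fun _ _ => mem_coe.2 (mem_univ _)) ?_
      intro f hf g hg hfg
      have hf' := (mem_filter.1 (mem_coe.1 hf)).2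
      have hg' := (mem_filter.1 (mem_coe.1 hg)).2
      funext w
      rw [hf' w, hg' w]
      exact hfg
    rwa [Finset.card_univ, ZMod.card] at h2
  have h3 : (univ.filter (fun c : Fin n → ZMod p => ∀ w ∈ A, c w = c u)).card
      = (univ.filter (fun f : Fin n → ZMod p =>
          ∀ w : A, (f ∘ Subtype.val) w = (f ∘ Subtype.val) (⟨u, hu⟩ : A))).card := by
    congr 1
    ext c
    simp only [mem_filter, mem_univ, true_and, Function.comp]
    exact ⟨fun h w => h w.1 w.2, fun h w hw => h ⟨w, hw⟩⟩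
  rw [h3]
  have h4 := Nat.mul_le_mul_right (p ^ n) h1
  rw [← h, pow_succ, ← mul_assoc] at h4
  rw [mul_comm p] at h4
  exact Nat.le_of_mul_le_mul_right h4 hp

open Classical in
theorem T07_alone (n p k : ℕ) [NeZero p] (e : Finset (Fin n)) (u : Fin n) (hu : u ∈ e)
    (he : e.card = k) (hk : 2 * k ≤ p) :
    2 * (univ.filter (fun c : Fin n → ZMod p => ¬ ∀ w ∈ e, c w = c u → w = u)).card ≤ p ^ n := by
  have hsub : univ.filter (fun c : Fin n → ZMod p => ¬ ∀ w ∈ e, c w = c u → w = u)
      ⊆ (e.erase u).biUnion fun w => univ.filter (fun c : Fin n → ZMod p => c w = c u) := by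
    intro c hc
    have h1 := (mem_filter.1 hc).2
    push Not at h1
    obtain ⟨w, hw, hcw, hne⟩ := h1
    exact mem_biUnion.2 ⟨w, mem_erase.2 ⟨hne, hw⟩, mem_filter.2 ⟨mem_univ _, hcw⟩⟩
  have h2 := (card_le_card hsub).trans card_biUnion_le
  have h3 : ∀ w ∈ e.erase u,
      (univ.filter (fun c : Fin n → ZMod p => c w = c u)).card * p ≤ p ^ n := by
    intro w hw
    have hne := (mem_erase.1 hw).1
    have h4 := T07_const n p {w, u} u (by simp) 1 (card_pair hne)
    rw [pow_one] at h4
    refine le_trans (Nat.mul_le_mul_right p (card_le_card ?_)) h4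
    intro c hc
    have h5 := (mem_filter.1 hc).2
    refine mem_filter.2 ⟨mem_univ _, ?_⟩
    intro v hv
    rcases mem_insert.1 hv with rfl | hv
    · exact h5
    · rw [mem_singleton.1 hv]
  have hk1 : 1 ≤ k := by
    rw [← he]
    exact card_pos.2 ⟨u, hu⟩
  set x := (univ.filter (fun c : Fin n → ZMod p => ¬ ∀ w ∈ e, c w = c u → w = u)).card
  have h6 : x * p ≤ k * p ^ n := by
    calc x * p ≤ (∑ w ∈ e.erase u, (univ.filter (fun c : Fin n → ZMod p => c w = c u)).card) * p :=
          Nat.mul_le_mul_right p h2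
      _ = ∑ w ∈ e.erase u, (univ.filter (fun c : Fin n → ZMod p => c w = c u)).card * p :=
          Finset.sum_mul _ _ _
      _ ≤ (e.erase u).card • p ^ n := Finset.sum_le_card_nsmul _ _ _ h3
      _ ≤ k * p ^ n := by
          rw [smul_eq_mul]
          refine Nat.mul_le_mul_right _ ?_
          rw [← he]
          exact card_le_card (erase_subset _ _)
  have h7 : k * (2 * x) ≤ k * p ^ n := by
    calc k * (2 * x) = x * (2 * k) := by ring
      _ ≤ x * p := Nat.mul_le_mul_left x hk
      _ ≤ k * p ^ n := h6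
  exact Nat.le_of_mul_le_mul_left h7 hk1

open Classical in
theorem T07_good (n p s k : ℕ) [NeZero p] (e : Finset (Fin n)) (hs : 1 ≤ s) (he : e.card = k)
    (hk : k ^ (s + 2) ≤ p ^ (s + 1)) :
    6 * (univ.filter (fun c : Fin n → ZMod p => ¬ Good s c e)).card ≤ p ^ n := by
  have hp : 0 < p := Nat.pos_of_ne_zero (NeZero.ne p)
  have hsub : univ.filter (fun c : Fin n → ZMod p => ¬ Good s c e)
      ⊆ (e.powersetCard (s + 2)).biUnion fun A =>
        univ.filter (fun c : Fin n → ZMod p => ∀ w ∈ A, ∀ v ∈ A, c w = c v) := by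
    intro c hc
    have h1 := (mem_filter.1 hc).2
    unfold Good at h1
    push Not at h1
    obtain ⟨j, hj⟩ := h1
    obtain ⟨A, hA, hAc⟩ := Finset.exists_subset_card_eq (Nat.succ_le_of_lt hj)
    refine mem_biUnion.2 ⟨A, mem_powersetCard.2 ⟨hA.trans (filter_subset _ _), hAc⟩,
      mem_filter.2 ⟨mem_univ _, fun w hw v hv => ?_⟩⟩
    rw [(mem_filter.1 (hA hw)).2, (mem_filter.1 (hA hv)).2]
  have h2 := (card_le_card hsub).trans card_biUnion_le
  have h3 : ∀ A ∈ e.powersetCard (s + 2),
      (univ.filter (fun c : Fin n → ZMod p => ∀ w ∈ A, ∀ v ∈ A, c w = c v)).card * p ^ (s + 1)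
        ≤ p ^ n := by
    intro A hA
    have hAc := (mem_powersetCard.1 hA).2
    obtain ⟨u, hu⟩ := card_pos.1 (show 0 < A.card by omega)
    refine le_trans (Nat.mul_le_mul_right _ (card_le_card ?_)) (T07_const n p A u hu (s + 1) hAc)
    intro c hc
    exact mem_filter.2 ⟨mem_univ _, fun w hw => (mem_filter.1 hc).2 w hw u hu⟩
  set x := (univ.filter (fun c : Fin n → ZMod p => ¬ Good s c e)).card
  have h6 : x * p ^ (s + 1) ≤ k.choose (s + 2) * p ^ n := by
    calc x * p ^ (s + 1) ≤ (∑ A ∈ e.powersetCard (s + 2), (univ.filter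
            (fun c : Fin n → ZMod p => ∀ w ∈ A, ∀ v ∈ A, c w = c v)).card) * p ^ (s + 1) :=
          Nat.mul_le_mul_right _ h2
      _ = ∑ A ∈ e.powersetCard (s + 2), (univ.filter
            (fun c : Fin n → ZMod p => ∀ w ∈ A, ∀ v ∈ A, c w = c v)).card * p ^ (s + 1) :=
          Finset.sum_mul _ _ _
      _ ≤ (e.powersetCard (s + 2)).card • p ^ n := Finset.sum_le_card_nsmul _ _ _ h3
      _ = k.choose (s + 2) * p ^ n := by
          rw [smul_eq_mul, card_powersetCard, he]
  have h7 : 6 * k.choose (s + 2) ≤ p ^ (s + 1) := by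
    have h8 : (3).factorial ≤ (s + 2).factorial := Nat.factorial_le (by omega)
    have h9 : (3).factorial = 6 := rfl
    calc 6 * k.choose (s + 2) ≤ (s + 2).factorial * k.choose (s + 2) :=
          Nat.mul_le_mul_right _ (h9 ▸ h8)
      _ = k.descFactorial (s + 2) := (Nat.descFactorial_eq_factorial_mul_choose k (s + 2)).symm
      _ ≤ k ^ (s + 2) := Nat.descFactorial_le_pow k (s + 2)
      _ ≤ p ^ (s + 1) := hk
  have h10 : p ^ (s + 1) * (6 * x) ≤ p ^ (s + 1) * p ^ n := by
    calc p ^ (s + 1) * (6 * x) = 6 * (x * p ^ (s + 1)) := by ring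
      _ ≤ 6 * (k.choose (s + 2) * p ^ n) := Nat.mul_le_mul_left 6 h6
      _ = (6 * k.choose (s + 2)) * p ^ n := by ring
      _ ≤ p ^ (s + 1) * p ^ n := Nat.mul_le_mul_right _ h7
  exact Nat.le_of_mul_le_mul_left h10 (pow_pos hp _)

theorem T07ColourCount_proof : ColourCount := by
  classical
  intro n p s k _ e hs he hk hks
  have hper : ∀ u ∈ e, p ^ n ≤ 3 * (univ.filter (fun c : Fin n → ZMod p =>
      Good s c e ∧ ∀ w ∈ e, c w = c u → w = u)).card := by
    intro u hu
    have h1 := T07_alone n p k e u hu he hk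
    have h2 := T07_good n p s k e hs he hks
    have h3 : (univ : Finset (Fin n → ZMod p)).card ≤
        (univ.filter (fun c : Fin n → ZMod p => Good s c e ∧ ∀ w ∈ e, c w = c u → w = u)).card
        + ((univ.filter (fun c : Fin n → ZMod p => ¬ Good s c e)).card
        + (univ.filter (fun c : Fin n → ZMod p => ¬ ∀ w ∈ e, c w = c u → w = u)).card) := by
      refine le_trans (card_le_card ?_) ((card_union_le _ _).trans
        (Nat.add_le_add_left (card_union_le _ _) _))
      intro c _
      by_cases hg : Good s c e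
      · by_cases ha : ∀ w ∈ e, c w = c u → w = u
        · exact mem_union_left _ (mem_filter.2 ⟨mem_univ _, hg, ha⟩)
        · exact mem_union_right _ (mem_union_right _ (mem_filter.2 ⟨mem_univ _, ha⟩))
      · exact mem_union_right _ (mem_union_left _ (mem_filter.2 ⟨mem_univ _, hg⟩))
    have h4 : (univ : Finset (Fin n → ZMod p)).card = p ^ n := by
      rw [Finset.card_univ, Fintype.card_fun, ZMod.card, Fintype.card_fin]
    rw [h4] at h3
    omega
  rw [Nat.card_eq_fintype_card, Fintype.card_subtype]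
  set S := univ.filter (fun x : (Fin n → ZMod p) × Fin n =>
    Good s x.1 e ∧ x.2 ∈ e ∧ ∀ w ∈ e, x.1 w = x.1 x.2 → w = x.2) with hS
  have h5 : S.card = ∑ u ∈ e, (S.filter (fun x => x.2 = u)).card :=
    Finset.card_eq_sum_card_fiberwise fun x hx => (mem_filter.1 (mem_coe.1 hx)).2.2.1
  have h6 : ∀ u ∈ e, p ^ n ≤ 3 * (S.filter (fun x => x.2 = u)).card := by
    intro u hu
    refine (hper u hu).trans (Nat.mul_le_mul_left 3 ?_)
    refine Finset.card_le_card_of_injOn (fun c => (c, u)) ?_ ?_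
    · intro c hc
      obtain ⟨-, hg, ha⟩ := mem_filter.1 (mem_coe.1 hc)
      exact mem_coe.2 (mem_filter.2 ⟨mem_filter.2 ⟨mem_univ _, hg, hu, ha⟩, rfl⟩)
    · intro c _ c' _ h
      exact (Prod.mk.inj h).1
  calc k * p ^ n = e.card • p ^ n := by rw [he, smul_eq_mul]
    _ ≤ ∑ u ∈ e, 3 * (S.filter (fun x => x.2 = u)).card := Finset.card_nsmul_le_sum _ _ _ h6
    _ = 3 * S.card := by rw [h5, Finset.mul_sum]

end Pool.Agent.H82R2.ZT
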