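import Pool.Agent.H82R2.ZT.Defs

/-! Task T08 (helper924): double counting. -/

open Finset

namespace Pool.Agent.H82R2.ZT

open Pool.Agent.MP07f90a

theorem t08_two : ∀ x : ZMod 2, x ≠ 1 → x = 0 := by decide

theorem t08_prod {ι : Type} [Fintype ι] (F : ι → ZMod 2) : ∏ i, F i = 1 ↔ ∀ i, F i = 1 := by
  constructor
  · intro h i
    by_contra hi
    have h0 := t08_two _ hi
    rw [Finset.prod_eq_zero (Finset.mem_univ i) h0] at h
    exact absurd h (by decide)
  · intro h
    exact Finset.prod_eq_one fun i _ => h i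

theorem t08_count {s : ℕ} {X : Type} [Fintype X] [DecidableEq X] (F : Fin s → X → ZMod 2) (N : ℕ)
    (h : ∀ i, N ≤ 4 * (univ.filter (fun x => F i x = 1)).card) :
    N ^ s ≤ 4 ^ s * (univ.filter (fun a : Fin s → X => ∏ i, F i (a i) = 1)).card := by
  classical
  have e : (univ.filter (fun a : Fin s → X => ∏ i, F i (a i) = 1)) =
      Fintype.piFinset (fun i => univ.filter (fun x => F i x = 1)) := by
    ext a
    rw [Fintype.mem_piFinset, mem_filter]
    simp only [mem_univ, true_and, mem_filter]
    exact t08_prod fun i => F i (a i)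
  rw [e, Fintype.card_piFinset]
  have h1 : N ^ s = ∏ _i : Fin s, N := by simp
  have h2 : 4 ^ s * ∏ i : Fin s, (univ.filter (fun x => F i x = 1)).card =
      ∏ i : Fin s, (4 * (univ.filter (fun x => F i x = 1)).card) := by
    rw [Finset.prod_mul_distrib]
    simp
  rw [h1, h2]
  exact Finset.prod_le_prod (fun i _ => Nat.zero_le _) fun i _ => h i

open Classical in
theorem t08_sum_ab (n p s k : ℕ) [Fact p.Prime] (K : Type) [CommRing K] (lam : K →+ ZMod 2)
    (c : Fin n → ZMod p) (a : Fin s → Fin n → K) :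
    ∑ ab : ZMod p × ZMod p, (fam k lam c a ab.1 ab.2).card =
      ∑ e ∈ (univ : Finset (Fin n)).powersetCard k,
        if (Good s c e ∧ val lam c a e = 1) then
          (e.filter (fun u => ∀ w ∈ e, c w = c u → w = u)).card else 0 := by
  have h1 : ∀ ab : ZMod p × ZMod p, (fam k lam c a ab.1 ab.2).card =
      ∑ e ∈ (univ : Finset (Fin n)).powersetCard k,
        if (Good s c e ∧ val lam c a e = 1 ∧
          ∃ u ∈ e, (∀ w ∈ e, c w = c u → w = u) ∧
            ∑ z ∈ e.erase u, c z = ab.1 ∧ ∑ z ∈ e.erase u, (c z) ^ 2 = ab.2) then 1 else 0 := by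
    intro ab
    rw [fam, Finset.card_filter]
  rw [Finset.sum_congr rfl (fun ab _ => h1 ab), Finset.sum_comm]
  apply Finset.sum_congr rfl
  intro e he
  by_cases hI : Good s c e ∧ val lam c a e = 1
  · rw [if_pos hI]
    rw [← Finset.card_filter]
    have : (univ.filter (fun ab : ZMod p × ZMod p => Good s c e ∧ val lam c a e = 1 ∧
        ∃ u ∈ e, (∀ w ∈ e, c w = c u → w = u) ∧
            ∑ z ∈ e.erase u, c z = ab.1 ∧ ∑ z ∈ e.erase u, (c z) ^ 2 = ab.2)) =
        (e.filter (fun u => ∀ w ∈ e, c w = c u → w = u)).image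
          (fun y => (∑ z ∈ e.erase y, c z, ∑ z ∈ e.erase y, (c z) ^ 2)) := by
      ext ⟨x, y⟩
      simp only [mem_filter, mem_univ, true_and, mem_image, Prod.mk.injEq]
      constructor
      · rintro ⟨-, -, u, hu, h1, h2, h3⟩
        exact ⟨u, ⟨hu, h1⟩, h2, h3⟩
      · rintro ⟨u, ⟨hu, h1⟩, h2, h3⟩
        exact ⟨hI.1, hI.2, u, hu, h1, h2, h3⟩
    rw [this, Finset.card_image_of_injOn]
    intro y hy y' hy' hyy
    have hy1 := mem_filter.1 (Finset.mem_coe.1 hy)
    have hy2 := mem_filter.1 (Finset.mem_coe.1 hy')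
    simp only [Prod.mk.injEq] at hyy
    have h2 := Finset.add_sum_erase e (fun z => c z) hy1.1
    have h3 := Finset.add_sum_erase e (fun z => c z) hy2.1
    apply hy2.2 y hy1.1
    have : c y + ∑ z ∈ e.erase y, c z = c y' + ∑ z ∈ e.erase y', c z := by
      rw [h2, h3]
    rw [hyy.1] at this
    exact add_right_cancel this
  · rw [if_neg hI]
    apply Finset.sum_eq_zero
    intro ab _
    rw [if_neg]
    rintro ⟨h1, h2, -⟩
    exact hI ⟨h1, h2⟩

theorem t08_proof (h5 : FamAdmissible) (h6 : LevelCount) (h7 : ColourCount) : FamBound := by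
  classical
  intro n p s k _ K _ _ lam hchar hlam hK hp2 hs hkp hks
  have hp0 : 0 < p := (Fact.out : p.Prime).pos
  set q := Fintype.card K with hq
  have hq0 : 0 < q := Fintype.card_pos
  set T : ℕ := ∑ c : Fin n → ZMod p, ∑ a : Fin s → Fin n → K, ∑ ab : ZMod p × ZMod p,
    (fam k lam c a ab.1 ab.2).card with hT
  have upper : T ≤ p ^ n * ((q ^ n) ^ s * (p ^ 2 * m n k)) := by
    rw [hT]
    calc ∑ c : Fin n → ZMod p, ∑ a : Fin s → Fin n → K, ∑ ab : ZMod p × ZMod p,
          (fam k lam c a ab.1 ab.2).card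
        ≤ ∑ c : Fin n → ZMod p, ∑ a : Fin s → Fin n → K, ∑ ab : ZMod p × ZMod p, m n k := by
          apply Finset.sum_le_sum; intro c _
          apply Finset.sum_le_sum; intro a _
          apply Finset.sum_le_sum; intro ab _
          exact le_m (h5 n p s k K lam c a ab.1 ab.2 hp2)
      _ = p ^ n * ((q ^ n) ^ s * (p ^ 2 * m n k)) := by
          simp [ZMod.card, pow_two, hq]
  have e1 : T = ∑ e ∈ (univ : Finset (Fin n)).powersetCard k, ∑ c : Fin n → ZMod p,
      ∑ a : Fin s → Fin n → K, if (Good s c e ∧ val lam c a e = 1) then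
          (e.filter (fun u => ∀ w ∈ e, c w = c u → w = u)).card else 0 := by
    rw [hT, Finset.sum_comm]
    rw [Finset.sum_comm]
    have : ∀ c : Fin n → ZMod p, ∑ a : Fin s → Fin n → K, ∑ ab : ZMod p × ZMod p,
        (fam k lam c a ab.1 ab.2).card = ∑ e ∈ (univ : Finset (Fin n)).powersetCard k,
        ∑ a : Fin s → Fin n → K, if (Good s c e ∧ val lam c a e = 1) then
          (e.filter (fun u => ∀ w ∈ e, c w = c u → w = u)).card else 0 := by
      intro c
      rw [Finset.sum_comm (s := (univ : Finset (Fin n)).powersetCard k)]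
      apply Finset.sum_congr rfl
      intro a _
      exact t08_sum_ab n p s k K lam c a
    rw [Finset.sum_congr rfl (fun c _ => this c), Finset.sum_comm]
  have lower : ∀ e ∈ (univ : Finset (Fin n)).powersetCard k,
      k * p ^ n * (q ^ n) ^ s ≤ 3 * 4 ^ s * ∑ c : Fin n → ZMod p,
      ∑ a : Fin s → Fin n → K, if (Good s c e ∧ val lam c a e = 1) then
          (e.filter (fun u => ∀ w ∈ e, c w = c u → w = u)).card else 0 := by
    intro e he
    have hek : e.card = k := (Finset.mem_powersetCard.1 he).2
    have h8 := h7 n p s k e hs hek hkp hks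
    have h9 : Nat.card {x : (Fin n → ZMod p) × Fin n //
        Good s x.1 e ∧ x.2 ∈ e ∧ ∀ w ∈ e, x.1 w = x.1 x.2 → w = x.2} =
        ∑ c : Fin n → ZMod p, if Good s c e then
          (e.filter (fun u => ∀ w ∈ e, c w = c u → w = u)).card else 0 := by
      rw [Nat.card_eq_fintype_card, Fintype.card_subtype, Finset.card_filter,
        Fintype.sum_prod_type]
      apply Finset.sum_congr rfl
      intro c _
      by_cases hG : Good s c e
      · rw [if_pos hG, Finset.card_filter, ← Finset.sum_filter, ← Finset.sum_filter]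
        apply Finset.sum_congr _ (fun _ _ => rfl)
        ext u
        simp only [mem_filter, mem_univ, true_and]
        constructor
        · rintro ⟨-, h1, h2⟩
          exact ⟨h1, h2⟩
        · rintro ⟨h1, h2⟩
          exact ⟨hG, h1, h2⟩
      · rw [if_neg hG]
        apply Finset.sum_eq_zero
        intro u _
        rw [if_neg]
        rintro ⟨h1, -⟩
        exact hG h1
    rw [h9] at h8
    have h10 : ∀ c : Fin n → ZMod p,
        (q ^ n) ^ s * (if Good s c e then
          (e.filter (fun u => ∀ w ∈ e, c w = c u → w = u)).card else 0) ≤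
        4 ^ s * ∑ a : Fin s → Fin n → K, if (Good s c e ∧ val lam c a e = 1) then
          (e.filter (fun u => ∀ w ∈ e, c w = c u → w = u)).card else 0 := by
      intro c
      by_cases hG : Good s c e
      · rw [if_pos hG]
        have h11 : ∑ a : Fin s → Fin n → K, (if (Good s c e ∧ val lam c a e = 1) then
          (e.filter (fun u => ∀ w ∈ e, c w = c u → w = u)).card else 0) =
          (univ.filter (fun a : Fin s → Fin n → K => val lam c a e = 1)).card *
            (e.filter (fun u => ∀ w ∈ e, c w = c u → w = u)).card := by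
          rw [← Finset.sum_filter, Finset.sum_const, smul_eq_mul]
          congr 2
          ext a
          simp only [mem_filter, mem_univ, true_and]
          exact ⟨fun h => h.2, fun h => ⟨hG, h⟩⟩
        rw [h11, ← mul_assoc]
        apply Nat.mul_le_mul_right
        have h12 := t08_count (s := s) (X := Fin n → K)
          (fun i b => lam (∏ j : ZMod p, slot b (i : ℕ) (cont c e j))) (q ^ n) (by
            intro i
            have h := h6 n p k (i : ℕ) K lam c e hchar hlam hek.le hK
            rw [Nat.card_eq_fintype_card, Fintype.card_subtype] at h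
            exact h)
        exact h12
      · rw [if_neg hG, mul_zero]
        exact Nat.zero_le _
    calc k * p ^ n * (q ^ n) ^ s
        ≤ (3 * ∑ c : Fin n → ZMod p, if Good s c e then
          (e.filter (fun u => ∀ w ∈ e, c w = c u → w = u)).card else 0) * (q ^ n) ^ s :=
          Nat.mul_le_mul_right _ h8
      _ = 3 * ∑ c : Fin n → ZMod p, (q ^ n) ^ s * (if Good s c e then
          (e.filter (fun u => ∀ w ∈ e, c w = c u → w = u)).card else 0) := by
          rw [← Finset.mul_sum]; ring
      _ ≤ 3 * ∑ c : Fin n → ZMod p, 4 ^ s * ∑ a : Fin s → Fin n → K,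
          (if (Good s c e ∧ val lam c a e = 1) then
          (e.filter (fun u => ∀ w ∈ e, c w = c u → w = u)).card else 0) := by
          apply Nat.mul_le_mul_left
          exact Finset.sum_le_sum fun c _ => h10 c
      _ = _ := by
          rw [← Finset.mul_sum]; ring
  have h13 : n.choose k * (k * p ^ n * (q ^ n) ^ s) ≤ 3 * 4 ^ s * T := by
    rw [e1, Finset.mul_sum]
    calc n.choose k * (k * p ^ n * (q ^ n) ^ s)
        = ∑ e ∈ (univ : Finset (Fin n)).powersetCard k, k * p ^ n * (q ^ n) ^ s := by
          simp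
      _ ≤ _ := Finset.sum_le_sum lower
  have h14 : 0 < p ^ n * (q ^ n) ^ s := by positivity
  apply Nat.le_of_mul_le_mul_left _ h14
  calc p ^ n * (q ^ n) ^ s * (k * n.choose k) = n.choose k * (k * p ^ n * (q ^ n) ^ s) := by ring
    _ ≤ 3 * 4 ^ s * T := h13
    _ ≤ 3 * 4 ^ s * (p ^ n * ((q ^ n) ^ s * (p ^ 2 * m n k))) := Nat.mul_le_mul_left _ upper
    _ = p ^ n * (q ^ n) ^ s * (3 * 4 ^ s * p ^ 2 * m n k) := by ring

end Pool.Agent.H82R2.ZT
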