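import Pool.Agent.H82R2.ZT.Defs

/-! Task T09 (helper924): a field of characteristic two with a functional. -/

namespace Pool.Agent.H82R2.ZT

theorem t09_two : ∀ x : ZMod 2, x ≠ 0 → x = 1 := by decide

theorem t09_proof : FieldExists := by
  intro N
  have hp2 : Fact (Nat.Prime 2) := ⟨Nat.prime_two⟩
  have hne : ¬ ∀ φ : Module.Dual (ZMod 2) (GaloisField 2 (N + 1)), φ 1 = 0 := by
    rw [Module.forall_dual_apply_eq_zero_iff]
    exact one_ne_zero
  push Not at hne
  obtain ⟨φ, hφ⟩ := hne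
  refine ⟨GaloisField 2 (N + 1), inferInstance, Fintype.ofFinite _, φ.toAddMonoidHom, inferInstance,
    t09_two _ hφ, ?_⟩
  have h := GaloisField.card 2 (N + 1) (Nat.succ_ne_zero N)
  rw [@Nat.card_eq_fintype_card _ (Fintype.ofFinite _)] at h
  have h2 : N < 2 ^ N := Nat.lt_two_pow_self
  have h3 : 2 ^ (N + 1) = 2 * 2 ^ N := by ring
  have h4 : N ≤ 2 ^ (N + 1) := by omega
  rw [← h] at h4
  exact h4

end Pool.Agent.H82R2.ZT
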