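import Pool.Agent.H82R2.ZT.Defs

/-! T10: the prime (helper944) -/

open Finset

namespace Pool.Agent.H82R2.ZT

theorem T10PrimeExists_proof : PrimeExists := by
  intro s k hs hk
  set x : ℝ := (k : ℝ) ^ (1 + 1 / ((s : ℝ) + 1)) with hx
  have hs0 : (0 : ℝ) < (s : ℝ) + 1 := by positivity
  have hk2 : (2 : ℝ) ≤ k := by exact_mod_cast hk
  have hkx : (k : ℝ) ≤ x := by
    calc (k : ℝ) = (k : ℝ) ^ (1 : ℝ) := (Real.rpow_one _).symm
      _ ≤ x := Real.rpow_le_rpow_of_exponent_le (by linarith) (by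
        have : 0 ≤ 1 / ((s : ℝ) + 1) := by positivity
        linarith)
  have hx0 : 0 ≤ x := by linarith
  have hxp : x ^ (s + 1) = (k : ℝ) ^ (s + 2) := by
    rw [hx, ← Real.rpow_natCast, ← Real.rpow_mul (by linarith), ← Real.rpow_natCast]
    congr 1
    push_cast
    field_simp
    ring
  set N : ℕ := max (2 * k) ⌈x⌉₊ with hN
  have hN0 : N ≠ 0 := by
    have : 2 * k ≤ N := le_max_left _ _
    omega
  obtain ⟨p, hp, hNp, hp2⟩ := Nat.exists_prime_lt_and_le_two_mul N hN0
  have h2k : 2 * k ≤ N := le_max_left _ _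
  have hxN : x ≤ N := (Nat.le_ceil x).trans (by exact_mod_cast le_max_right _ _)
  have hxp' : x ≤ p := hxN.trans (by exact_mod_cast hNp.le)
  refine ⟨p, hp, by omega, by omega, ?_, ?_⟩
  · have : (k : ℝ) ^ (s + 2) ≤ (p : ℝ) ^ (s + 1) := by
      rw [← hxp]
      exact pow_le_pow_left₀ hx0 hxp' _
    exact_mod_cast this
  · have h1 : (N : ℝ) ≤ 3 * x := by
      rcases max_choice (2 * k) ⌈x⌉₊ with h | h
      · rw [hN, h]
        push_cast
        linarith
      · rw [hN, h]
        have := Nat.ceil_lt_add_one hx0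
        linarith
    have h3 : (p : ℝ) ≤ 2 * N := by exact_mod_cast hp2
    linarith

theorem PrimeExists_proof : PrimeExists := T10PrimeExists_proof

end Pool.Agent.H82R2.ZT
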