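import Pool.Agent.H82R2.ZT.Defs

/-!
# T11: the bound with a parameter (helper48)
-/

open Finset

namespace Pool.Agent.H82R2.ZT

open Pool.Agent.MP07f90a

theorem paramBound_proof (h8 : FamBound) (h9 : FieldExists) (h10 : PrimeExists) :
    ParamBound := by
  intro n k s hk hs
  obtain ⟨p, hp, hp2, h2k, hpk, hle⟩ := h10 s k hs hk
  obtain ⟨K, iK, iF, lam, hch, hl1, hcard⟩ := h9 (2 * k)
  have : Fact p.Prime := ⟨hp⟩
  have h := h8 n p s k K lam hch hl1 hcard hp2 hs h2k hpk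
  have hR : (k : ℝ) * (n.choose k : ℝ) ≤ 3 * 4 ^ s * (p : ℝ) ^ 2 * (m n k : ℝ) := by
    exact_mod_cast h
  have hk0 : (0 : ℝ) < k := by
    have : 0 < k := by omega
    exact_mod_cast this
  have hp2' : (p : ℝ) ^ 2 ≤ 36 * ((k : ℝ) * (k : ℝ) ^ (1 + 2 / ((s : ℝ) + 1))) := by
    have h1 : (p : ℝ) ^ 2 ≤ (6 * (k : ℝ) ^ (1 + 1 / ((s : ℝ) + 1))) ^ 2 :=
      pow_le_pow_left₀ (Nat.cast_nonneg p) hle 2
    refine h1.trans (le_of_eq ?_)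
    rw [mul_pow]
    have h2 : ((k : ℝ) ^ (1 + 1 / ((s : ℝ) + 1))) ^ 2 =
        (k : ℝ) * (k : ℝ) ^ (1 + 2 / ((s : ℝ) + 1)) := by
      have h4 : (k : ℝ) * (k : ℝ) ^ (1 + 2 / ((s : ℝ) + 1)) =
          (k : ℝ) ^ (1 + (1 + 2 / ((s : ℝ) + 1))) := by
        rw [Real.rpow_add hk0 1 (1 + 2 / ((s : ℝ) + 1)), Real.rpow_one]
      rw [h4, sq, ← Real.rpow_add hk0]
      congr 1
      ring
    rw [h2]
    norm_num
  have h3 : (k : ℝ) * (n.choose k : ℝ) ≤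
      (k : ℝ) * (108 * 4 ^ s * (k : ℝ) ^ (1 + 2 / ((s : ℝ) + 1)) * (m n k : ℝ)) := by
    calc (k : ℝ) * (n.choose k : ℝ) ≤ 3 * 4 ^ s * (p : ℝ) ^ 2 * (m n k : ℝ) := hR
      _ ≤ 3 * 4 ^ s * (36 * ((k : ℝ) * (k : ℝ) ^ (1 + 2 / ((s : ℝ) + 1)))) * (m n k : ℝ) := by
          gcongr
      _ = _ := by ring
  exact le_of_mul_le_mul_left h3 hk0

end Pool.Agent.H82R2.ZT
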