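import Pool.Agent.H82R2.ZT.Defs

set_option autoImplicit false

namespace Pool.Agent.H82R2.ZT

theorem t12FinalBound_aux (k : ℕ) (hk : 2 ≤ k) : ∃ s : ℕ, 1 ≤ s ∧
    108 * 4 ^ s * (k : ℝ) ^ (1 + 2 / ((s : ℝ) + 1)) ≤ 432 * k * Real.exp (4 * √(Real.log k)) := by
  have hk1 : (1 : ℝ) < k := by
    have : (2 : ℝ) ≤ k := by exact_mod_cast hk
    linarith
  have hk0 : (0 : ℝ) < k := by linarith
  have hL : 0 < Real.log k := Real.log_pos hk1
  set r : ℝ := √(Real.log k) with hr
  have hr0 : 0 < r := Real.sqrt_pos.2 hL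
  have hrr : r * r = Real.log k := Real.mul_self_sqrt hL.le
  refine ⟨⌊r⌋₊ + 1, by omega, ?_⟩
  set s : ℕ := ⌊r⌋₊ + 1 with hs
  have hs1 : r < (s : ℝ) := by
    rw [hs]
    push_cast
    exact Nat.lt_floor_add_one r
  have hs2 : (s : ℝ) ≤ r + 1 := by
    rw [hs]
    push_cast
    linarith [Nat.floor_le hr0.le]
  have hlog4 : Real.log 4 ≤ 1.4 := by
    have h1 : Real.log 4 = 2 * Real.log 2 := by
      rw [show (4 : ℝ) = 2 ^ 2 by norm_num, Real.log_pow]
      norm_num
    rw [h1]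
    linarith [Real.log_two_lt_d9]
  have hlog40 : 0 < Real.log 4 := Real.log_pos (by norm_num)
  have h4 : (4 : ℝ) ^ s ≤ 4 * Real.exp (1.4 * r) := by
    calc (4 : ℝ) ^ s = Real.exp (Real.log 4 * s) := by
          rw [Real.exp_mul, Real.exp_log (by norm_num), Real.rpow_natCast]
      _ ≤ Real.exp (Real.log 4 + 1.4 * r) := by
          apply Real.exp_le_exp.2
          have h5 : Real.log 4 * s ≤ Real.log 4 * (r + 1) := by gcongr
          have h6 : Real.log 4 * r ≤ 1.4 * r := by gcongr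
          linarith
      _ = 4 * Real.exp (1.4 * r) := by
          rw [Real.exp_add, Real.exp_log (by norm_num)]
  have hkp : (k : ℝ) ^ (1 + 2 / ((s : ℝ) + 1)) ≤ k * Real.exp (2 * r) := by
    rw [Real.rpow_add hk0, Real.rpow_one, Real.rpow_def_of_pos hk0]
    have h5 : Real.log k * (2 / ((s : ℝ) + 1)) ≤ 2 * r := by
      rw [← hrr, mul_div_assoc', div_le_iff₀ (by positivity)]
      nlinarith
    have := Real.exp_le_exp.2 h5
    gcongr
  calc 108 * 4 ^ s * (k : ℝ) ^ (1 + 2 / ((s : ℝ) + 1))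
      ≤ 108 * (4 * Real.exp (1.4 * r)) * (k * Real.exp (2 * r)) := by gcongr
    _ = 432 * k * (Real.exp (1.4 * r) * Real.exp (2 * r)) := by ring
    _ ≤ 432 * k * Real.exp (4 * r) := by
        rw [← Real.exp_add]
        have : 1.4 * r + 2 * r ≤ 4 * r := by linarith
        have := Real.exp_le_exp.2 this
        gcongr

theorem t12FinalBound_proof (h11 : ParamBound) : FinalBound := by
  intro n k hk
  obtain ⟨s, hs1, hs2⟩ := t12FinalBound_aux k hk
  refine (h11 n k s hk hs1).trans ?_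
  exact mul_le_mul_of_nonneg_right hs2 (Nat.cast_nonneg _)

theorem finalBound_proof (h11 : ParamBound) : FinalBound := t12FinalBound_proof h11

end Pool.Agent.H82R2.ZT
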